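import Pool.Agent.H323.GM.Match

set_option autoImplicit false

/-!
For odd `r, c`, not both congruent to `3` modulo `4`, and every even white cell `h` of the
`r × c` grid, the number of near-perfect matchings of the grid graph missing exactly `h` is
divisible by `4`.
-/

namespace Pool.Agent.Results.MP_bab3d5_co.DivisibleByFour

open Pool.Agent.H323.GM

theorem result : ∀ r c : ℕ, Odd r → Odd c → ¬ (r % 4 = 3 ∧ c % 4 = 3) →
    ∀ h : Cell r c, Even h.1.1 → Even h.1.2 → 4 ∣ nearPerfectCount r c h :=
  fun r c hr hc hrc h h1 h2 => main r c hr hc hrc h h1 h2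

end Pool.Agent.Results.MP_bab3d5_co.DivisibleByFour
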